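import Mathlib

set_option autoImplicit false

open MeasureTheory Set Filter Topology
open scoped RealInnerProductSpace NNReal ENNReal

namespace Pool.Agent.W5h70.Klam

/-- the plane -/
abbrev E : Type := EuclideanSpace ℝ (Fin 2)

/-- rotation by a right angle -/
def rot (q : E) : E := !₂[-q 1, q 0]

theorem inner_coord (x y : E) : ⟪x, y⟫ = x 0 * y 0 + x 1 * y 1 := by
  simp [PiLp.inner_apply, Fin.sum_univ_two, mul_comm]

theorem inner_rot_self (q : E) : ⟪rot q, q⟫ = 0 := by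
  rw [inner_coord]; simp [rot]; ring

theorem normsq_coord (x : E) : ‖x‖ ^ 2 = x 0 ^ 2 + x 1 ^ 2 := by
  rw [← real_inner_self_eq_norm_sq, inner_coord]; ring

theorem norm_rot (q : E) : ‖rot q‖ = ‖q‖ := by
  have h : ‖rot q‖ ^ 2 = ‖q‖ ^ 2 := by
    rw [normsq_coord, normsq_coord]; simp [rot]; ring
  exact (pow_left_inj₀ (norm_nonneg _) (norm_nonneg _) two_ne_zero).1 h

/-- the decomposition in an orthogonal basis -/
theorem decomp {q τ : E} (hq : q ≠ 0) (hτ : τ = rot q ∨ τ = -rot q) (x : E) :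
    x = (⟪q, x⟫ / ‖q‖ ^ 2) • q + (⟪τ, x⟫ / ‖q‖ ^ 2) • τ := by
  have hq2 : ‖q‖ ^ 2 ≠ 0 := by positivity
  have h2 : q 0 ^ 2 + q 1 ^ 2 ≠ 0 := by rw [← normsq_coord]; exact hq2
  rcases hτ with rfl | rfl <;>
  · ext i
    rw [normsq_coord]
    fin_cases i <;>
    · simp [inner_coord, rot]
      field_simp
      ring

/-- lower bound for the length of a curve -/
theorem le_length {γ : ℝ → E} {s : ℝ} (hs : 0 < s) (hγ : ContinuousOn γ (Icc 0 s)) :
    ENNReal.ofReal ‖γ s - γ 0‖ ≤ μH[1] (γ '' Ioo 0 s) := by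
  by_cases h0 : γ s - γ 0 = 0
  · rw [h0]; simp
  set v : E := (‖γ s - γ 0‖)⁻¹ • (γ s - γ 0) with hv
  have hvn : ‖v‖ = 1 := by
    rw [hv, norm_smul, norm_inv, norm_norm, inv_mul_cancel₀ (norm_ne_zero_iff.2 h0)]
  let f : E → ℝ := fun x => ⟪v, x⟫
  have hf : LipschitzWith 1 f := by
    refine LipschitzWith.of_dist_le_mul fun x y => ?_
    rw [Real.dist_eq, dist_eq_norm]
    show |⟪v, x⟫ - ⟪v, y⟫| ≤ _
    rw [← inner_sub_right]
    refine (abs_real_inner_le_norm _ _).trans ?_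
    rw [hvn]; simp
  have hdiff : f (γ s) - f (γ 0) = ‖γ s - γ 0‖ := by
    show ⟪v, γ s⟫ - ⟪v, γ 0⟫ = _
    rw [← inner_sub_right, hv, real_inner_smul_left, real_inner_self_eq_norm_sq]
    field_simp
  have hcont : ContinuousOn (fun t => f (γ t)) (Icc 0 s) := hf.continuous.comp_continuousOn hγ
  have hsub : Ioo (f (γ 0)) (f (γ s)) ⊆ f '' (γ '' Ioo 0 s) := by
    intro y hy
    have := intermediate_value_Ioo hs.le hcont hy
    obtain ⟨t, ht, rfl⟩ := this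
    exact ⟨γ t, ⟨t, ht, rfl⟩, rfl⟩
  calc ENNReal.ofReal ‖γ s - γ 0‖ = volume (Ioo (f (γ 0)) (f (γ s))) := by
        rw [Real.volume_Ioo, hdiff]
    _ = μH[1] (Ioo (f (γ 0)) (f (γ s))) := by rw [hausdorffMeasure_real]
    _ ≤ μH[1] (f '' (γ '' Ioo 0 s)) := measure_mono hsub
    _ ≤ (1 : ℝ≥0) ^ (1:ℝ) * μH[1] (γ '' Ioo 0 s) := by
        simpa using hf.hausdorffMeasure_image_le zero_le_one (γ '' Ioo 0 s)
    _ = μH[1] (γ '' Ioo 0 s) := by simp

/-- upper bound for the length of a curve -/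
theorem length_le {γ : ℝ → E} {s L : ℝ} (hL : 0 ≤ L)
    (hγ : ∀ t ∈ Ioo 0 s, ∀ t' ∈ Ioo 0 s, t' < t → ‖γ t - γ t'‖ ≤ L * (t - t')) :
    μH[1] (γ '' Ioo 0 s) ≤ ENNReal.ofReal (L * s) := by
  have h1 : LipschitzOnWith (Real.toNNReal L) γ (Ioo 0 s) := by
    refine LipschitzOnWith.of_dist_le_mul fun t ht t' ht' => ?_
    rw [Real.coe_toNNReal L hL, dist_eq_norm, Real.dist_eq]
    rcases lt_trichotomy t t' with h | h | h
    · rw [norm_sub_rev, abs_sub_comm, abs_of_pos (sub_pos.2 h)]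
      exact hγ t' ht' t ht h
    · subst h; simp
    · rw [abs_of_pos (sub_pos.2 h)]
      exact hγ t ht t' ht' h
  have h2 := h1.hausdorffMeasure_image_le (d := 1) zero_le_one
  rw [hausdorffMeasure_real, Real.volume_Ioo, ENNReal.rpow_one] at h2
  refine h2.trans (le_of_eq ?_)
  rw [ENNReal.ofReal_mul hL]
  simp [ENNReal.ofReal]

end Pool.Agent.W5h70.Klam
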