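import Pool.Agent.W5h70.Klam1

set_option autoImplicit false

open MeasureTheory Set Filter Topology
open scoped RealInnerProductSpace NNReal ENNReal

namespace Pool.Agent.W5h70.Klam

/-- real analysis: the choice of the small parameter -/
theorem choice {φ ψ : ℝ → ℝ} {l κ : ℝ} (hφ : ConvexOn ℝ univ φ) (hφ0 : φ 0 = 1) (hl : 1 < l)
    (hψ : ContinuousAt ψ 0) (hψ0 : ψ 0 = 1 / l) (hle : ∀ t, φ t / l ≤ ψ t)
    (hκ : HasDerivWithinAt φ κ (Ioi 0) 0) (hκ0 : 0 ≤ κ) :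
    ∃ s L : ℝ, 0 < s ∧ 0 ≤ L ∧
      (∀ t ∈ Ioo 0 s, ∀ t' ∈ Ioo 0 s, t' < t →
        ((φ t)⁻¹ - (φ t')⁻¹) ^ 2 + (t * (φ t)⁻¹ - t' * (φ t')⁻¹) ^ 2 ≤ (L * (t - t')) ^ 2) ∧
      (L * s) ^ 2 < (l - (ψ s)⁻¹) ^ 2 + (s * (ψ s)⁻¹) ^ 2 := by
  have hl0 : 0 < l := by linarith
  -- lower bound for the chords
  have hslope : Tendsto (fun s => (φ s - 1) / s) (𝓝[>] 0) (𝓝 κ) := by
    have h := hasDerivWithinAt_iff_tendsto_slope.1 hκ
    have e : (Ioi (0:ℝ)) \ {0} = Ioi 0 := by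
      ext x; simp only [Set.mem_sdiff, Set.mem_Ioi, Set.mem_singleton_iff]
      exact ⟨fun h => h.1, fun h => ⟨h, h.ne'⟩⟩
    rw [e] at h
    refine h.congr fun s => ?_
    rw [slope_def_field, hφ0, sub_zero]
  have hmono : ∀ a b c : ℝ, a < b → b < c → (φ b - φ a) / (b - a) ≤ (φ c - φ b) / (c - b) :=
    fun a b c hab hbc => hφ.slope_mono_adjacent (mem_univ _) (mem_univ _) hab hbc
  have hlow : ∀ s : ℝ, 0 < s → κ ≤ (φ s - 1) / s := by
    intro s hs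
    refine le_of_tendsto hslope ?_
    filter_upwards [Ioo_mem_nhdsGT hs] with x hx
    have h1 := hφ.secant_mono_aux2 (mem_univ (0:ℝ)) (mem_univ s) hx.1 hx.2
    rw [hφ0, sub_zero, sub_zero] at h1
    exact h1
  have hφ1 : ∀ s : ℝ, 0 < s → 1 + κ * s ≤ φ s := by
    intro s hs
    have h1 := hlow s hs
    rw [le_div_iff₀ hs] at h1
    linarith
  have hφ1' : ∀ s : ℝ, 0 < s → 1 ≤ φ s := by
    intro s hs
    have h1 := hφ1 s hs
    have h2 : 0 ≤ κ * s := by positivity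
    linarith
  -- choice of ε
  obtain ⟨ε, hε, hεl⟩ : ∃ ε : ℝ, 0 < ε ∧ (κ + ε) ^ 2 + 1 < l ^ 2 * (κ ^ 2 + 1) := by
    have hc : ContinuousAt (fun ε : ℝ => (κ + ε) ^ 2 + 1) 0 := by fun_prop
    have h0 : (κ + 0) ^ 2 + 1 < l ^ 2 * (κ ^ 2 + 1) := by
      have h1 : 1 < l ^ 2 := by nlinarith
      have h2 : 0 < κ ^ 2 + 1 := by positivity
      have h3 := mul_lt_mul_of_pos_right h1 h2
      rw [add_zero]; linarith
    have h1 : ∀ᶠ ε in 𝓝 (0:ℝ), (κ + ε) ^ 2 + 1 < l ^ 2 * (κ ^ 2 + 1) :=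
      hc.eventually_lt continuousAt_const h0
    obtain ⟨d, hd, hd'⟩ := Metric.eventually_nhds_iff.1 h1
    exact ⟨d / 2, by linarith, hd' (by rw [Real.dist_eq, sub_zero, abs_of_pos] <;> linarith)⟩
  -- eventually in s
  have ev1 : ∀ᶠ s in 𝓝[>] (0:ℝ), (φ (2 * s) - φ s) / s < κ + ε := by
    have h2 : Tendsto (fun s : ℝ => 2 * s) (𝓝[>] 0) (𝓝[>] 0) := by
      refine tendsto_nhdsWithin_iff.2 ⟨?_, ?_⟩
      · have : Tendsto (fun s : ℝ => 2 * s) (𝓝 0) (𝓝 (2 * 0)) := (continuous_const.mul continuous_id).tendsto 0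
        rw [mul_zero] at this
        exact this.mono_left nhdsWithin_le_nhds
      · filter_upwards [self_mem_nhdsWithin] with s hs
        simp only [mem_Ioi] at hs ⊢; linarith
    have h3 := ((hslope.comp h2).const_mul 2).sub hslope
    have h4 : Tendsto (fun s : ℝ => (φ (2 * s) - φ s) / s) (𝓝[>] 0) (𝓝 (2 * κ - κ)) := by
      refine h3.congr' ?_
      filter_upwards [self_mem_nhdsWithin] with s hs
      simp only [mem_Ioi] at hs
      simp only [Function.comp]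
      field_simp
      ring
    exact h4.eventually_lt_const (by linarith)
  have ev2 : ∀ᶠ s in 𝓝[>] (0:ℝ), (κ + ε) ^ 2 + 1 < (l * κ / (1 + κ * s)) ^ 2 + ((ψ s)⁻¹) ^ 2 := by
    have hc : ContinuousAt (fun s : ℝ => (l * κ / (1 + κ * s)) ^ 2 + ((ψ s)⁻¹) ^ 2) 0 := by
      refine ContinuousAt.add ?_ ?_
      · refine ContinuousAt.pow ?_ 2
        refine ContinuousAt.div continuousAt_const (by fun_prop) (by norm_num)
      · refine ContinuousAt.pow (hψ.inv₀ ?_) 2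
        rw [hψ0]; positivity
    have h0 : (κ + ε) ^ 2 + 1 < (l * κ / (1 + κ * 0)) ^ 2 + ((ψ 0)⁻¹) ^ 2 := by
      rw [hψ0]; simp only [mul_zero, add_zero, div_one, one_div, inv_inv]
      nlinarith
    exact ((continuousAt_const.eventually_lt hc h0)).filter_mono nhdsWithin_le_nhds
  have ev3 : ∀ᶠ s in 𝓝[>] (0:ℝ), s * (κ + ε) < 1 := by
    have hc : ContinuousAt (fun s : ℝ => s * (κ + ε)) 0 := by fun_prop
    exact (hc.eventually_lt continuousAt_const (by simp)).filter_mono nhdsWithin_le_nhds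
  obtain ⟨s, ⟨⟨h1, h2⟩, h3⟩, hs⟩ := ((ev1.and ev2).and ev3 |>.and self_mem_nhdsWithin).exists
  replace hs : 0 < s := hs
  refine ⟨s, Real.sqrt ((κ + ε) ^ 2 + 1), hs, Real.sqrt_nonneg _, ?_, ?_⟩
  · rintro t ⟨ht0, hts⟩ t' ⟨ht0', hts'⟩ htt
    have hd : 0 < t - t' := by linarith
    obtain ⟨c, hc⟩ : ∃ c, c = (φ t - φ t') / (t - t') := ⟨_, rfl⟩
    have hc1 : c ≤ κ + ε := by
      have a1 := hmono t' t s htt hts
      have a2 := hmono t s (2 * s) hts (by linarith)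
      have a3 : (φ (2 * s) - φ s) / (2 * s - s) = (φ (2 * s) - φ s) / s := by
        congr 1; ring
      rw [a3] at a2
      rw [hc]; linarith
    have a4 := hmono 0 t' t ht0' htt
    rw [hφ0, sub_zero, ← hc] at a4
    have hc0 : κ ≤ c := (hlow t' ht0').trans a4
    have hft : φ t = φ t' + c * (t - t') := by
      rw [hc]; field_simp; ring
    have hp : 1 ≤ φ t := hφ1' t ht0
    have hp' : 1 ≤ φ t' := hφ1' t' ht0'
    have hi1 : φ t' - t' * c ≤ 1 := by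
      rw [div_le_iff₀ ht0'] at a4; linarith
    have hi2 : 0 ≤ φ t' - t' * c := by
      have : t' * c ≤ s * (κ + ε) := by
        refine mul_le_mul hts'.le hc1 (hκ0.trans hc0) hs.le
      linarith
    have e1 : (φ t)⁻¹ - (φ t')⁻¹ = -(c * (t - t')) / (φ t * φ t') := by
      field_simp
      rw [hft]; ring
    have e2 : t * (φ t)⁻¹ - t' * (φ t')⁻¹ = (t - t') * (φ t' - t' * c) / (φ t * φ t') := by
      field_simp
      rw [hft]; ring
    have esq : (Real.sqrt ((κ + ε) ^ 2 + 1) * (t - t')) ^ 2 = ((κ + ε) ^ 2 + 1) * (t - t') ^ 2 := by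
      rw [mul_pow, Real.sq_sqrt (by positivity)]
    rw [e1, e2, div_pow, div_pow, ← add_div, esq, div_le_iff₀ (by positivity)]
    have hpp : 1 ≤ (φ t * φ t') ^ 2 := one_le_pow₀ (one_le_mul_of_one_le_of_one_le hp hp')
    have hcn : 0 ≤ c := hκ0.trans hc0
    have b1 : c ^ 2 ≤ (κ + ε) ^ 2 := pow_le_pow_left₀ hcn hc1 2
    have b2 : (φ t' - t' * c) ^ 2 ≤ 1 := pow_le_one₀ hi2 hi1
    have b3 : (-(c * (t - t'))) ^ 2 + ((t - t') * (φ t' - t' * c)) ^ 2 ≤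
        ((κ + ε) ^ 2 + 1) * (t - t') ^ 2 := by
      have e3 : (-(c * (t - t'))) ^ 2 + ((t - t') * (φ t' - t' * c)) ^ 2 =
        (c ^ 2 + (φ t' - t' * c) ^ 2) * (t - t') ^ 2 := by ring
      rw [e3]
      exact mul_le_mul_of_nonneg_right (by linarith) (sq_nonneg _)
    have b4 : 0 ≤ ((κ + ε) ^ 2 + 1) * (t - t') ^ 2 := by positivity
    exact b3.trans (le_mul_of_one_le_right b4 hpp)
  · rw [mul_pow, Real.sq_sqrt (by positivity)]
    have hks : 0 < 1 + κ * s := by positivity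
    have hψs : (1 + κ * s) / l ≤ ψ s := by
      refine le_trans ?_ (hle s)
      exact div_le_div_of_nonneg_right (hφ1 s hs) hl0.le
    have hψpos : 0 < ψ s := lt_of_lt_of_le (by positivity) hψs
    have hinv : (ψ s)⁻¹ ≤ l / (1 + κ * s) := by
      rw [inv_le_comm₀ hψpos (by positivity), inv_div]
      exact hψs
    have g1 : l * κ / (1 + κ * s) * s ≤ l - (ψ s)⁻¹ := by
      have : l * κ / (1 + κ * s) * s = l - l / (1 + κ * s) := by
        field_simp; ring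
      rw [this]; linarith
    have g2 : 0 ≤ l * κ / (1 + κ * s) * s := by positivity
    have g3 : (l * κ / (1 + κ * s) * s) ^ 2 ≤ (l - (ψ s)⁻¹) ^ 2 := by
      exact pow_le_pow_left₀ g2 g1 2
    have g4 : ((κ + ε) ^ 2 + 1) * s ^ 2 < ((l * κ / (1 + κ * s)) ^ 2 + ((ψ s)⁻¹) ^ 2) * s ^ 2 :=
      mul_lt_mul_of_pos_right h2 (by positivity)
    have g5 : ((l * κ / (1 + κ * s)) ^ 2 + ((ψ s)⁻¹) ^ 2) * s ^ 2 =
      (l * κ / (1 + κ * s) * s) ^ 2 + (s * (ψ s)⁻¹) ^ 2 := by ring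
    linarith

end Pool.Agent.W5h70.Klam
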