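import Pool.Agent.W5h70.Klam2

set_option autoImplicit false

open MeasureTheory Set Filter Topology
open scoped RealInnerProductSpace NNReal ENNReal

namespace Pool.Agent.W5h70.Klam

section
variable {K : Set E} (hc : Convex ℝ K) (hK : IsCompact K) (h0 : K ∈ 𝓝 (0 : E))

include hK h0 in
theorem g_pos {x : E} (hx : x ≠ 0) : 0 < gauge K x :=
  (gauge_pos (absorbent_nhds_zero h0) ((NormedSpace.isVonNBounded_iff ℝ).2 hK.isBounded)).2 hx

theorem g_smul {a : ℝ} (ha : 0 ≤ a) (x : E) : gauge K (a • x) = a * gauge K x := by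
  rw [gauge_smul_of_nonneg ha, smul_eq_mul]

include hc h0 in
theorem g_convex (q τ : E) : ConvexOn ℝ univ (fun t : ℝ => gauge K (q + t • τ)) := by
  refine ⟨convex_univ, fun x _ y _ a b ha hb hab => ?_⟩
  have e : q + (a • x + b • y) • τ = a • (q + x • τ) + b • (q + y • τ) := by
    simp only [smul_eq_mul]
    have : q = (a + b) • q := by rw [hab, one_smul]
    conv_lhs => rw [this]
    module
  show gauge K (q + (a • x + b • y) • τ) ≤ a • gauge K (q + x • τ) + b • gauge K (q + y • τ)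
  rw [e]
  refine (gauge_add_le hc (absorbent_nhds_zero h0) _ _).trans ?_
  rw [g_smul ha, g_smul hb, smul_eq_mul, smul_eq_mul]

/-- the parametrised arc -/
noncomputable def arc (K : Set E) (q τ : E) (t : ℝ) : E := (gauge K (q + t • τ))⁻¹ • (q + t • τ)

theorem inner_q {q τ : E} (hτ : τ = rot q ∨ τ = -rot q) : ⟪q, τ⟫ = 0 := by
  rcases hτ with rfl | rfl
  · rw [real_inner_comm]; exact inner_rot_self q
  · rw [inner_neg_right, real_inner_comm, inner_rot_self, neg_zero]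

theorem norm_tau {q τ : E} (hτ : τ = rot q ∨ τ = -rot q) : ‖τ‖ = ‖q‖ := by
  rcases hτ with rfl | rfl
  · exact norm_rot q
  · rw [norm_neg]; exact norm_rot q

theorem ne_zero_q {q τ : E} (hq : q ≠ 0) (hτ : τ = rot q ∨ τ = -rot q) (t : ℝ) : q + t • τ ≠ 0 := by
  intro h
  have h1 : ⟪q, q + t • τ⟫ = ‖q‖ ^ 2 := by
    rw [inner_add_right, real_inner_smul_right, inner_q hτ, real_inner_self_eq_norm_sq]; ring
  rw [h, inner_zero_right] at h1
  have : ‖q‖ ^ 2 ≠ 0 := by positivity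
  exact this h1.symm

include hc hK h0 in
/-- the part of the boundary in a sector -/
theorem sector_eq {q τ : E} (hq : q ≠ 0) (hτ : τ = rot q ∨ τ = -rot q) {s : ℝ} (hs : 0 < s) :
    frontier K ∩ {x | 0 < ⟪τ, x⟫ ∧ ⟪τ, x⟫ < s * ⟪q, x⟫} = arc K q τ '' Ioo 0 s := by
  have hq2 : 0 < ‖q‖ ^ 2 := by positivity
  ext x
  constructor
  · rintro ⟨hx, hb, hbs⟩
    have ha : 0 < ⟪q, x⟫ := by
      by_contra hcon
      have : s * ⟪q, x⟫ ≤ 0 := mul_nonpos_of_nonneg_of_nonpos hs.le (not_lt.1 hcon)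
      linarith
    refine ⟨⟪τ, x⟫ / ⟪q, x⟫, ⟨by positivity, by rw [div_lt_iff₀ ha]; exact hbs⟩, ?_⟩
    have hdec := decomp hq hτ x
    have e1 : x = (⟪q, x⟫ / ‖q‖ ^ 2) • (q + (⟪τ, x⟫ / ⟪q, x⟫) • τ) := by
      rw [smul_add, smul_smul]
      have : ⟪q, x⟫ / ‖q‖ ^ 2 * (⟪τ, x⟫ / ⟪q, x⟫) = ⟪τ, x⟫ / ‖q‖ ^ 2 := by field_simp
      rw [this]
      exact hdec
    have hg : gauge K x = 1 := (gauge_eq_one_iff_mem_frontier hc h0).2 hx
    have hg' : ⟪q, x⟫ / ‖q‖ ^ 2 * gauge K (q + (⟪τ, x⟫ / ⟪q, x⟫) • τ) = 1 := by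
      rw [← g_smul (by positivity), ← e1, hg]
    unfold arc
    rw [← eq_inv_of_mul_eq_one_left hg']
    exact e1.symm
  · rintro ⟨t, ⟨ht0, hts⟩, rfl⟩
    have hgp : 0 < gauge K (q + t • τ) := g_pos hK h0 (ne_zero_q hq hτ t)
    unfold arc
    refine ⟨?_, ?_, ?_⟩
    · rw [← gauge_eq_one_iff_mem_frontier hc h0, g_smul (by positivity), inv_mul_cancel₀ hgp.ne']
    · show 0 < ⟪τ, _⟫
      rw [real_inner_smul_right, inner_add_right, real_inner_smul_right, real_inner_comm,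
        inner_q hτ, real_inner_self_eq_norm_sq, norm_tau hτ, zero_add]
      positivity
    · show ⟪τ, _⟫ < s * ⟪q, _⟫
      rw [real_inner_smul_right, inner_add_right, real_inner_smul_right, real_inner_comm,
        inner_q hτ, real_inner_self_eq_norm_sq, norm_tau hτ, zero_add, real_inner_smul_right,
        inner_add_right, real_inner_smul_right, inner_q hτ, real_inner_self_eq_norm_sq]
      have : 0 < (gauge K (q + t • τ))⁻¹ * ‖q‖ ^ 2 := by positivity
      nlinarith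

/-- squared norm in the orthogonal basis -/
theorem norm_sq_basis {q τ : E} (hτ : τ = rot q ∨ τ = -rot q) (a b : ℝ) :
    ‖a • q + b • τ‖ ^ 2 = ‖q‖ ^ 2 * (a ^ 2 + b ^ 2) := by
  rw [norm_add_sq_real, real_inner_smul_left, real_inner_smul_right, inner_q hτ, norm_smul,
    norm_smul, norm_tau hτ]
  simp only [mul_zero, add_zero, mul_pow, Real.norm_eq_abs, sq_abs]
  ring

/-- the unit circle -/
noncomputable def circ (θ : ℝ) : E := !₂[Real.cos θ, Real.sin θ]

theorem norm_circ (θ : ℝ) : ‖circ θ‖ = 1 := by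
  have h : ‖circ θ‖ ^ 2 = 1 ^ 2 := by
    rw [normsq_coord]; simp [circ]
  exact (pow_left_inj₀ (norm_nonneg _) zero_le_one two_ne_zero).1 h

theorem circ_lip (θ θ' : ℝ) : ‖circ θ - circ θ'‖ ≤ |θ - θ'| := by
  have h : ‖circ θ - circ θ'‖ ^ 2 ≤ |θ - θ'| ^ 2 := by
    rw [normsq_coord, sq_abs]
    simp only [circ, PiLp.sub_apply, PiLp.toLp_apply, Matrix.cons_val_zero, Matrix.cons_val_one]
    have h1 := Real.one_sub_sq_div_two_le_cos (x := θ - θ')
    rw [Real.cos_sub] at h1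
    nlinarith [Real.sin_sq_add_cos_sq θ, Real.sin_sq_add_cos_sq θ']
  exact (pow_le_pow_iff_left₀ (norm_nonneg _) (abs_nonneg _) two_ne_zero).1 h

theorem exists_circ (x : E) : ∃ θ ∈ Ioc (-Real.pi) Real.pi, x = ‖x‖ • circ θ := by
  let z : ℂ := ⟨x 0, x 1⟩
  have hz : ‖z‖ = ‖x‖ := by
    have h1 : ‖z‖ ^ 2 = ‖x‖ ^ 2 := by
      rw [← Complex.normSq_eq_norm_sq, normsq_coord, Complex.normSq_apply]
      simp [z]; ring
    exact (pow_left_inj₀ (norm_nonneg _) (norm_nonneg _) two_ne_zero).1 h1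
  refine ⟨z.arg, Complex.arg_mem_Ioc z, ?_⟩
  have hcos := Complex.norm_mul_cos_arg z
  have hsin := Complex.norm_mul_sin_arg z
  rw [hz] at hcos hsin
  ext i
  fin_cases i
  · simp [circ, hcos, z]
  · simp [circ, hsin, z]

include hc hK h0 in
/-- the boundary has finite length -/
theorem length_finite : μH[1] (frontier K) < ∞ := by
  obtain ⟨Lg, hLg⟩ := hc.lipschitz_gauge h0
  obtain ⟨m, hm, hm'⟩ : ∃ m : ℝ, 0 < m ∧ ∀ θ : ℝ, m ≤ gauge K (circ θ) := by
    have hcomp : IsCompact (Metric.sphere (0 : E) 1) := isCompact_sphere _ _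
    have hne : (Metric.sphere (0 : E) 1).Nonempty := ⟨circ 0, by simp [norm_circ]⟩
    obtain ⟨x, hx, hmin⟩ := hcomp.exists_isMinOn hne (hLg.continuous.continuousOn)
    refine ⟨gauge K x, g_pos hK h0 ?_, fun θ => hmin (by simp [norm_circ])⟩
    rintro rfl
    simp at hx
  let F : ℝ → E := fun θ => (gauge K (circ θ))⁻¹ • circ θ
  obtain ⟨C, hC, hF⟩ : ∃ C : ℝ, 0 ≤ C ∧ ∀ θ θ', ‖F θ - F θ'‖ ≤ C * |θ - θ'| := by
    refine ⟨m⁻¹ + Lg / m ^ 2, by positivity, fun θ θ' => ?_⟩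
    have hp : 0 < gauge K (circ θ) := lt_of_lt_of_le hm (hm' θ)
    have hp' : 0 < gauge K (circ θ') := lt_of_lt_of_le hm (hm' θ')
    have e : F θ - F θ' = (gauge K (circ θ))⁻¹ • (circ θ - circ θ') +
        ((gauge K (circ θ))⁻¹ - (gauge K (circ θ'))⁻¹) • circ θ' := by
      simp only [F]; module
    rw [e]
    refine (norm_add_le _ _).trans ?_
    rw [norm_smul, norm_smul, norm_circ, mul_one, add_mul]
    refine add_le_add ?_ ?_
    · rw [Real.norm_of_nonneg (by positivity)]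
      exact mul_le_mul (inv_anti₀ hm (hm' θ)) (circ_lip θ θ') (norm_nonneg _) (by positivity)
    · rw [inv_sub_inv hp.ne' hp'.ne', norm_div, norm_mul, Real.norm_of_nonneg hp.le,
        Real.norm_of_nonneg hp'.le, div_mul_eq_mul_div]
      have h1 : ‖gauge K (circ θ') - gauge K (circ θ)‖ ≤ Lg * |θ - θ'| := by
        have := hLg.dist_le_mul (circ θ') (circ θ)
        rw [dist_eq_norm, dist_eq_norm] at this
        refine this.trans (mul_le_mul_of_nonneg_left ?_ Lg.2)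
        rw [norm_sub_rev]; exact circ_lip θ θ'
      refine div_le_div₀ (by positivity) h1 (by positivity) ?_
      rw [sq]
      exact mul_le_mul (hm' θ) (hm' θ') hm.le hp.le
  have hFl : LipschitzWith (Real.toNNReal C) F := by
    refine LipschitzWith.of_dist_le_mul fun θ θ' => ?_
    rw [Real.coe_toNNReal C hC, dist_eq_norm, Real.dist_eq]
    exact hF θ θ'
  have hsub : frontier K ⊆ F '' Ioc (-Real.pi) Real.pi := by
    intro x hx
    obtain ⟨θ, hθ, hxθ⟩ := exists_circ x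
    have hg : gauge K x = 1 := (gauge_eq_one_iff_mem_frontier hc h0).2 hx
    rw [hxθ, g_smul (norm_nonneg _)] at hg
    refine ⟨θ, hθ, ?_⟩
    show (gauge K (circ θ))⁻¹ • circ θ = x
    rw [← eq_inv_of_mul_eq_one_left hg]
    exact hxθ.symm
  refine (measure_mono hsub).trans_lt ?_
  have h2 := hFl.hausdorffMeasure_image_le (d := 1) zero_le_one (Ioc (-Real.pi) Real.pi)
  rw [hausdorffMeasure_real, Real.volume_Ioc, ENNReal.rpow_one] at h2
  exact h2.trans_lt (ENNReal.mul_lt_top ENNReal.coe_lt_top ENNReal.ofReal_lt_top)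

end

end Pool.Agent.W5h70.Klam
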