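import Pool.Agent.W5h70.Klam3

set_option autoImplicit false

open MeasureTheory Set Filter Topology
open scoped RealInnerProductSpace NNReal ENNReal

namespace Pool.Agent.W5h70.Klam

section
variable {K : Set E} (hc : Convex ℝ K) (hK : IsCompact K) (h0 : K ∈ 𝓝 (0 : E))

include hc hK h0 in
/-- a line through the centre carries no length -/
theorem line_null {u : E} (hu : u ≠ 0) : μH[1] (frontier K ∩ {x | ⟪u, x⟫ = 0}) = 0 := by
  have hfin : (frontier K ∩ {x | ⟪u, x⟫ = 0}) ⊆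
      {(gauge K (rot u))⁻¹ • rot u, (gauge K (-rot u))⁻¹ • (-rot u)} := by
    rintro x ⟨hx, hx0⟩
    have hx0' : ⟪u, x⟫ = 0 := hx0
    have hdec := decomp hu (Or.inl rfl) x
    rw [hx0', zero_div, zero_smul, zero_add] at hdec
    have hg : gauge K x = 1 := (gauge_eq_one_iff_mem_frontier hc h0).2 hx
    rcases le_total 0 (⟪rot u, x⟫ / ‖u‖ ^ 2) with h | h
    · left
      rw [hdec, g_smul h] at hg
      rw [← eq_inv_of_mul_eq_one_left hg]
      exact hdec
    · right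
      have hdec' : x = (-(⟪rot u, x⟫ / ‖u‖ ^ 2)) • (-rot u) := by
        rw [smul_neg, neg_smul, neg_neg]; exact hdec
      rw [hdec', g_smul (by linarith)] at hg
      show x = _
      rw [← eq_inv_of_mul_eq_one_left hg]
      exact hdec'
  have h1 : μH[1] ({(gauge K (rot u))⁻¹ • rot u, (gauge K (-rot u))⁻¹ • (-rot u)} : Set E) = 0 := by
    have := Measure.nullSingletonClass_hausdorff E (d := 1) one_pos
    exact (Set.toFinite _).measure_zero _
  exact measure_mono_null hfin h1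

include hc hK h0 in
theorem sector_measure (hbis : ∀ u : E, u ≠ 0 →
      μH[1] (frontier K ∩ {x | 0 < ⟪u, x⟫}) = μH[1] (frontier K ∩ {x | ⟪u, x⟫ < 0}))
    {a b : E} (ha : a ≠ 0) (hb : b ≠ 0) :
    μH[1] (frontier K ∩ {x | 0 < ⟪a, x⟫ ∧ ⟪b, x⟫ < 0}) =
      μH[1] (frontier K ∩ {x | ⟪a, x⟫ < 0 ∧ 0 < ⟪b, x⟫}) := by
  set C := frontier K with hC
  have hfin : μH[1] C < ∞ := length_finite hc hK h0
  have mpos : ∀ u : E, MeasurableSet {x : E | 0 < ⟪u, x⟫} := fun u =>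
    (isOpen_lt continuous_const (by fun_prop)).measurableSet
  have mneg : ∀ u : E, MeasurableSet {x : E | ⟪u, x⟫ < 0} := fun u =>
    (isOpen_lt (by fun_prop) continuous_const).measurableSet
  -- splitting by a line
  have split : ∀ (S : Set E), S ⊆ C → ∀ u : E, u ≠ 0 →
      μH[1] S = μH[1] (S ∩ {x | 0 < ⟪u, x⟫}) + μH[1] (S ∩ {x | ⟪u, x⟫ < 0}) := by
    intro S hS u hu
    have h1 := measure_inter_add_sdiff (μ := (μH[1] : Measure E)) S (mpos u)
    have h2 : μH[1] (S \ {x | 0 < ⟪u, x⟫}) = μH[1] (S ∩ {x | ⟪u, x⟫ < 0}) := by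
      refine le_antisymm ?_ (measure_mono ?_)
      · have hsub : S \ {x | 0 < ⟪u, x⟫} ⊆ (S ∩ {x | ⟪u, x⟫ < 0}) ∪ (C ∩ {x | ⟪u, x⟫ = 0}) := by
          rintro x ⟨hx, hx1⟩
          have hx2 : ⟪u, x⟫ ≤ 0 := not_lt.1 hx1
          rcases hx2.lt_or_eq with h | h
          · exact Or.inl ⟨hx, h⟩
          · exact Or.inr ⟨hS hx, h⟩
        refine (measure_mono hsub).trans ((measure_union_le _ _).trans ?_)
        rw [line_null hc hK h0 hu, add_zero]
      · rintro x ⟨hx, hx1⟩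
        exact ⟨hx, fun h : 0 < ⟪u, x⟫ => lt_asymm h hx1⟩
    rw [← h2]; exact h1.symm
  have hA := split C subset_rfl a ha
  have hB := split C subset_rfl b hb
  rw [hbis a ha] at hA
  rw [← hbis b hb] at hB
  have hAB : μH[1] (C ∩ {x | ⟪a, x⟫ < 0}) = μH[1] (C ∩ {x | 0 < ⟪b, x⟫}) := by
    rw [hA, ← two_mul, ← two_mul] at hB
    exact (ENNReal.mul_right_inj two_ne_zero ENNReal.ofNat_ne_top).1 hB
  rw [← hbis a ha] at hAB
  have h1 := split (C ∩ {x | 0 < ⟪a, x⟫}) inter_subset_left b hb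
  have h2 := split (C ∩ {x | 0 < ⟪b, x⟫}) inter_subset_left a ha
  rw [hAB, h2] at h1
  have e1 : C ∩ {x | 0 < ⟪b, x⟫} ∩ {x | 0 < ⟪a, x⟫} = C ∩ {x | 0 < ⟪a, x⟫} ∩ {x | 0 < ⟪b, x⟫} := by
    ext x; simp only [mem_inter_iff]; tauto
  rw [e1] at h1
  have hne : μH[1] (C ∩ {x | 0 < ⟪a, x⟫} ∩ {x | 0 < ⟪b, x⟫}) ≠ ∞ :=
    ((measure_mono (inter_subset_left.trans inter_subset_left)).trans_lt hfin).ne
  have h3 := (ENNReal.add_right_inj hne).1 h1
  have e2 : C ∩ {x | 0 < ⟪a, x⟫ ∧ ⟪b, x⟫ < 0} = C ∩ {x | 0 < ⟪a, x⟫} ∩ {x | ⟪b, x⟫ < 0} := by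
    ext x; simp only [mem_inter_iff, Set.mem_ofPred_eq]; tauto
  have e3 : C ∩ {x | ⟪a, x⟫ < 0 ∧ 0 < ⟪b, x⟫} = C ∩ {x | 0 < ⟪b, x⟫} ∩ {x | ⟪a, x⟫ < 0} := by
    ext x; simp only [mem_inter_iff, Set.mem_ofPred_eq]; tauto
  rw [e2, e3, h3]

include hc hK h0 in
/-- the contradiction at a point where the ratio of the gauges is extremal -/
theorem core_aux (hbis : ∀ u : E, u ≠ 0 →
      μH[1] (frontier K ∩ {x | 0 < ⟪u, x⟫}) = μH[1] (frontier K ∩ {x | ⟪u, x⟫ < 0}))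
    {l : ℝ} (hl : 1 < l) (hmax : ∀ x, gauge K x ≤ l * gauge K (-x)) {q : E} (hq : q ≠ 0)
    (hq1 : gauge K q = 1) (hq2 : gauge K (-q) = 1 / l) {τ : E} (hτ : τ = rot q ∨ τ = -rot q)
    {κ : ℝ} (hκ : HasDerivWithinAt (fun t : ℝ => gauge K (q + t • τ)) κ (Ioi 0) 0) (hκ0 : 0 ≤ κ) :
    False := by
  have hl0 : 0 < l := by linarith
  have hgc : Continuous (gauge K) := continuous_gauge hc h0
  have hnq : 0 < ‖q‖ := norm_pos_iff.2 hq
  have hτ' : -τ = rot (-q) ∨ -τ = -rot (-q) := by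
    have e : rot (-q) = -rot q := by
      ext i; fin_cases i <;> simp [rot]
    rw [e]
    rcases hτ with rfl | rfl
    · exact Or.inl rfl
    · exact Or.inr rfl
  have hnq' : -q ≠ 0 := neg_ne_zero.2 hq
  obtain ⟨s, L, hs, hL, hlip, hgap⟩ := choice (φ := fun t : ℝ => gauge K (q + t • τ))
    (ψ := fun t : ℝ => gauge K (-q + t • (-τ))) (l := l) (κ := κ) (g_convex hc h0 q τ) (by simp [hq1]) hl
    (by fun_prop) (by simp [hq2]) (fun t => by
      rw [div_le_iff₀ hl0, mul_comm]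
      have h := hmax (q + t • τ)
      have e : -(q + t • τ) = -q + t • (-τ) := by module
      rw [e] at h
      exact h) hκ hκ0
  -- the two arcs have the same length
  have hn : τ - s • q ≠ 0 := by
    intro h
    have h1 : ⟪q, τ - s • q⟫ = -(s * ‖q‖ ^ 2) := by
      rw [inner_sub_right, real_inner_smul_right, inner_q hτ, real_inner_self_eq_norm_sq]; ring
    rw [h, inner_zero_right] at h1
    have : 0 < s * ‖q‖ ^ 2 := by positivity
    linarith
  have hτ0 : τ ≠ 0 := by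
    intro h
    have := norm_tau hτ
    rw [h, norm_zero] at this
    linarith
  have hm := sector_measure hc hK h0 hbis hτ0 hn
  have e1 : {x : E | 0 < ⟪τ, x⟫ ∧ ⟪τ - s • q, x⟫ < 0} = {x | 0 < ⟪τ, x⟫ ∧ ⟪τ, x⟫ < s * ⟪q, x⟫} := by
    ext x
    simp only [Set.mem_ofPred_eq, inner_sub_left, real_inner_smul_left, sub_neg]
  have e2 : {x : E | ⟪τ, x⟫ < 0 ∧ 0 < ⟪τ - s • q, x⟫} =
      {x | 0 < ⟪-τ, x⟫ ∧ ⟪-τ, x⟫ < s * ⟪-q, x⟫} := by
    ext x
    simp only [Set.mem_ofPred_eq, inner_sub_left, real_inner_smul_left, inner_neg_left, sub_pos,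
      mul_neg, neg_lt_neg_iff, Left.neg_pos_iff]
  rw [e1, e2, sector_eq hc hK h0 hq hτ hs, sector_eq hc hK h0 hnq' hτ' hs] at hm
  -- upper bound
  have hup : μH[1] (arc K q τ '' Ioo 0 s) ≤ ENNReal.ofReal (L * ‖q‖ * s) := by
    refine length_le (by positivity) fun t ht t' ht' htt => ?_
    have h1 : arc K q τ t - arc K q τ t' =
        ((gauge K (q + t • τ))⁻¹ - (gauge K (q + t' • τ))⁻¹) • q +
        (t * (gauge K (q + t • τ))⁻¹ - t' * (gauge K (q + t' • τ))⁻¹) • τ := by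
      unfold arc; module
    have h2 : ‖arc K q τ t - arc K q τ t'‖ ^ 2 ≤ (L * ‖q‖ * (t - t')) ^ 2 := by
      rw [h1, norm_sq_basis hτ]
      have h3 := mul_le_mul_of_nonneg_left (hlip t ht t' ht' htt) (sq_nonneg ‖q‖)
      refine h3.trans (le_of_eq (by ring))
    exact (pow_le_pow_iff_left₀ (norm_nonneg _)
      (mul_nonneg (by positivity) (by linarith)) two_ne_zero).1 h2
  -- lower bound
  have hlow : ENNReal.ofReal ‖arc K (-q) (-τ) s - arc K (-q) (-τ) 0‖ ≤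
      μH[1] (arc K (-q) (-τ) '' Ioo 0 s) := by
    refine le_length hs (Continuous.continuousOn ?_)
    have hcont : Continuous fun t : ℝ => -q + t • (-τ) := by fun_prop
    exact ((hgc.comp hcont).inv₀ fun t => (g_pos hK h0 (ne_zero_q hnq' hτ' t)).ne').smul hcont
  have hcmp : ‖arc K (-q) (-τ) s - arc K (-q) (-τ) 0‖ ≤ L * ‖q‖ * s := by
    rw [← hm] at hlow
    exact (ENNReal.ofReal_le_ofReal_iff (by positivity)).1 (hlow.trans hup)
  have h4 : arc K (-q) (-τ) s - arc K (-q) (-τ) 0 =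
      ((gauge K (-q + s • (-τ)))⁻¹ - l) • (-q) + (s * (gauge K (-q + s • (-τ)))⁻¹) • (-τ) := by
    unfold arc
    rw [zero_smul, add_zero, hq2, one_div, inv_inv]
    module
  have h5 : ‖arc K (-q) (-τ) s - arc K (-q) (-τ) 0‖ ^ 2 =
      ‖q‖ ^ 2 * ((l - (gauge K (-q + s • (-τ)))⁻¹) ^ 2 + (s * (gauge K (-q + s • (-τ)))⁻¹) ^ 2) := by
    rw [h4, norm_sq_basis hτ', norm_neg]; ring
  have h6 : ‖arc K (-q) (-τ) s - arc K (-q) (-τ) 0‖ ^ 2 ≤ (L * ‖q‖ * s) ^ 2 :=
    pow_le_pow_left₀ (norm_nonneg _) hcmp 2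
  rw [h5] at h6
  have h7 : (L * ‖q‖ * s) ^ 2 = ‖q‖ ^ 2 * (L * s) ^ 2 := by ring
  rw [h7] at h6
  have h8 := le_of_mul_le_mul_left h6 (by positivity)
  exact absurd hgap (not_lt.2 h8)

include hc hK h0 in
/-- **Klamkin's problem**, with the centre at the origin -/
theorem core (hbis : ∀ u : E, u ≠ 0 →
      μH[1] (frontier K ∩ {x | 0 < ⟪u, x⟫}) = μH[1] (frontier K ∩ {x | ⟪u, x⟫ < 0})) :
    ∀ x, gauge K (-x) = gauge K x := by
  have hgc : Continuous (gauge K) := continuous_gauge hc h0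
  have hcomp : IsCompact (Metric.sphere (0 : E) 1) := isCompact_sphere _ _
  have hne : (Metric.sphere (0 : E) 1).Nonempty := ⟨circ 0, by simp [norm_circ]⟩
  have hpos : ∀ x ∈ Metric.sphere (0 : E) 1, gauge K (-x) ≠ 0 := by
    intro x hx
    refine (g_pos hK h0 ?_).ne'
    rw [neg_ne_zero]
    rintro rfl
    simp at hx
  obtain ⟨e, he, hmax⟩ := hcomp.exists_isMaxOn hne
    (f := fun x => gauge K x / gauge K (-x))
    (ContinuousOn.div hgc.continuousOn (by fun_prop) hpos)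
  have he0 : e ≠ 0 := by rintro rfl; simp at he
  have gp : 0 < gauge K e := g_pos hK h0 he0
  have gn : 0 < gauge K (-e) := g_pos hK h0 (neg_ne_zero.2 he0)
  set l : ℝ := gauge K e / gauge K (-e) with hl
  have hall : ∀ x, gauge K x ≤ l * gauge K (-x) := by
    intro x
    by_cases hx : x = 0
    · subst hx; simp
    have hxn : 0 < ‖x‖ := norm_pos_iff.2 hx
    have h1 : gauge K (‖x‖⁻¹ • x) / gauge K (-(‖x‖⁻¹ • x)) ≤ l :=
      hmax (by simp [norm_smul, hxn.ne'])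
    rw [← smul_neg, g_smul (by positivity), g_smul (by positivity),
      mul_div_mul_left _ _ (by positivity), div_le_iff₀ (g_pos hK h0 (neg_ne_zero.2 hx))] at h1
    exact h1
  by_cases hl1 : l ≤ 1
  · intro x
    have h1 := hall x
    have h2 := hall (-x)
    rw [neg_neg] at h2
    have h3 : 0 ≤ gauge K x := gauge_nonneg x
    have h4 : 0 ≤ gauge K (-x) := gauge_nonneg _
    refine le_antisymm ?_ ?_
    · exact h2.trans (mul_le_of_le_one_left h3 hl1)
    · exact h1.trans (mul_le_of_le_one_left h4 hl1)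
  exfalso
  rw [not_le] at hl1
  set q : E := (gauge K e)⁻¹ • e with hqd
  have hq : q ≠ 0 := smul_ne_zero (inv_ne_zero gp.ne') he0
  have hq1 : gauge K q = 1 := by rw [hqd, g_smul (by positivity), inv_mul_cancel₀ gp.ne']
  have hq2 : gauge K (-q) = 1 / l := by
    rw [hqd, ← smul_neg, g_smul (by positivity), hl]
    field_simp
  have hd : ∀ τ : E, ∃ κ, HasDerivWithinAt (fun t : ℝ => gauge K (q + t • τ)) κ (Ioi 0) 0 :=
    fun τ => ⟨_, (g_convex hc h0 q τ).hasDerivWithinAt_rightDeriv_of_mem_interior (by simp)⟩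
  obtain ⟨κ, hκ⟩ := hd (rot q)
  obtain ⟨κ', hκ'⟩ := hd (-rot q)
  rcases le_or_gt 0 κ with h | h
  · exact core_aux hc hK h0 hbis hl1 hall hq hq1 hq2 (Or.inl rfl) hκ h
  rcases le_or_gt 0 κ' with h' | h'
  · exact core_aux hc hK h0 hbis hl1 hall hq hq1 hq2 (Or.inr rfl) hκ' h'
  -- both one-sided derivatives negative: impossible for a convex function
  have hcv := g_convex hc h0 q (rot q)
  have s1 : Tendsto (fun t : ℝ => (gauge K (q + t • rot q) - 1) / t) (𝓝[>] 0) (𝓝 κ) := by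
    have h := hasDerivWithinAt_iff_tendsto_slope.1 hκ
    have e : (Ioi (0:ℝ)) \ {0} = Ioi 0 := by
      ext x; simp only [Set.mem_sdiff, Set.mem_Ioi, Set.mem_singleton_iff]
      exact ⟨fun h => h.1, fun h => ⟨h, h.ne'⟩⟩
    rw [e] at h
    refine h.congr fun s => ?_
    rw [slope_def_field]; simp [hq1]
  have s2 : Tendsto (fun t : ℝ => (gauge K (q + t • (-rot q)) - 1) / t) (𝓝[>] 0) (𝓝 κ') := by
    have h := hasDerivWithinAt_iff_tendsto_slope.1 hκ'
    have e : (Ioi (0:ℝ)) \ {0} = Ioi 0 := by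
      ext x; simp only [Set.mem_sdiff, Set.mem_Ioi, Set.mem_singleton_iff]
      exact ⟨fun h => h.1, fun h => ⟨h, h.ne'⟩⟩
    rw [e] at h
    refine h.congr fun s => ?_
    rw [slope_def_field]; simp [hq1]
  obtain ⟨t, ⟨ht1, ht2⟩, ht0⟩ :=
    ((s1.eventually_lt_const h).and (s2.eventually_lt_const h') |>.and self_mem_nhdsWithin).exists
  replace ht0 : 0 < t := ht0
  rw [div_lt_iff₀ ht0, zero_mul] at ht1 ht2
  have h2 : gauge K ((2:ℝ) • q) ≤ gauge K (q + t • rot q) + gauge K (q + t • (-rot q)) := by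
    have e : (2:ℝ) • q = (q + t • rot q) + (q + t • (-rot q)) := by module
    rw [e]; exact gauge_add_le hc (absorbent_nhds_zero h0) _ _
  rw [g_smul (by norm_num), hq1] at h2
  linarith

end

end Pool.Agent.W5h70.Klam
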